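import Mathlib
import Pool.Agent.W203.WS.Stm

/-! Project WS (helper203): lower bound for the expected number. -/

set_option autoImplicit false

open MeasureTheory Finset

namespace Pool.Agent.W447.WS

open Pool.Agent.W203.WS

/-- difference of powers on `[0, R]` -/
theorem pow_diff {R x y : ℝ} (k : ℕ) (hx0 : 0 ≤ x) (hxR : x ≤ R) (hy0 : 0 ≤ y) (hyR : y ≤ R) :
    |x ^ k - y ^ k| ≤ |x - y| * k * R ^ (k - 1) := by
  have h := abs_pow_sub_pow_le x y k
  refine h.trans ?_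
  have h1 : max |x| |y| ≤ R := by
    rw [abs_of_nonneg hx0, abs_of_nonneg hy0]; exact max_le hxR hyR
  have h2 : (max |x| |y|) ^ (k - 1) ≤ R ^ (k - 1) :=
    pow_le_pow_left₀ (le_max_of_le_left (abs_nonneg x)) h1 _
  exact mul_le_mul_of_nonneg_left h2 (by positivity)

/-- the thin shell inside the box -/
def shell (k n P : ℕ) (ε M : ℝ) : Set (Fin (n + 1) → ℝ) :=
  Set.pi Set.univ (fun _ => Set.Icc (P : ℝ) (4 * P)) ∩ {u | |(∑ i, (u i) ^ k) - M| ≤ ε}

theorem shell_closed (k n P : ℕ) (ε M : ℝ) : IsClosed (shell k n P ε M) := by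
  refine IsClosed.inter (isClosed_set_pi fun i _ => isClosed_Icc) ?_
  exact isClosed_le (by fun_prop) continuous_const

/-- the inner interval -/
theorem inner (k n P : ℕ) (hk : 1 ≤ k) (hP : 1 ≤ P) (ε M : ℝ) (hε : 0 < ε) (hε1 : ε ≤ 1)
    (v : ℝ) (hv1 : 3 / 2 * P ≤ v) (hv2 : v ≤ 3 * P) (hM : M = (n + 1) * v ^ k)
    (c0 : ℝ) (hc0 : c0 = 1 / (2 * (n + 1) * k * 4 ^ k))
    (y : Fin n → ℝ) (hy : ∀ i, |y i - v| ≤ c0 * P) :
    ∃ ρ : ℝ, ∀ x ∈ Set.Icc ρ (ρ + 1 / (k * 4 ^ k) * ε / P ^ (k - 1)),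
      (Fin.cons x y : Fin (n + 1) → ℝ) ∈ shell k n P ε M := by
  have hPr : (1 : ℝ) ≤ P := by exact_mod_cast hP
  have hP0 : (0 : ℝ) < P := by linarith
  have hkr : (1 : ℝ) ≤ k := by exact_mod_cast hk
  have hn0 : (0 : ℝ) ≤ n := Nat.cast_nonneg n
  have h4k : (4 : ℝ) ≤ 4 ^ k := by
    calc (4 : ℝ) = 4 ^ 1 := by norm_num
      _ ≤ 4 ^ k := pow_le_pow_right₀ (by norm_num) hk
  have hk4 : (4 : ℝ) ≤ k * 4 ^ k := by nlinarith
  have hden : (0 : ℝ) < 2 * (n + 1) * k * 4 ^ k := by positivity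
  have hc0pos : 0 < c0 := by rw [hc0]; positivity
  have hc0le : c0 ≤ 1 / 8 := by
    rw [hc0]
    apply one_div_le_one_div_of_le (by norm_num)
    nlinarith
  have hpk : (P : ℝ) ^ k = P ^ (k - 1) * P := by
    rw [← pow_succ]; congr 1; omega
  have h4pk : (4 * P : ℝ) ^ k = (4 * P) ^ (k - 1) * (4 * P) := by
    rw [← pow_succ]; congr 1; omega
  have hy1 : ∀ i, P ≤ y i ∧ y i ≤ 4 * P := by
    intro i
    have h := abs_le.1 (hy i)
    have h2 : c0 * P ≤ 1 / 8 * P := mul_le_mul_of_nonneg_right hc0le hP0.le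
    constructor <;> nlinarith [h.1, h.2]
  -- the sum of the other powers
  have hterm : ∀ i, |v ^ k - y i ^ k| ≤ c0 * k * 4 ^ k * P ^ k := by
    intro i
    have h := pow_diff (R := 4 * P) k (x := v) (y := y i) (by nlinarith) (by nlinarith)
      (by linarith [(hy1 i).1]) (hy1 i).2
    refine h.trans ?_
    have h1 : |v - y i| ≤ c0 * P := by rw [abs_sub_comm]; exact hy i
    have h2 : |v - y i| * k * (4 * (P : ℝ)) ^ (k - 1) ≤ c0 * P * k * (4 * (P : ℝ)) ^ (k - 1) := by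
      have : (0 : ℝ) ≤ k * (4 * (P : ℝ)) ^ (k - 1) := by positivity
      nlinarith
    refine h2.trans ?_
    have h3 : (4 : ℝ) ^ k * P ^ k = (4 * P) ^ (k - 1) * (4 * P) := by rw [← mul_pow, h4pk]
    have h4 : c0 * k * 4 ^ k * (P : ℝ) ^ k = c0 * P * k * (4 * (P : ℝ)) ^ (k - 1) * 4 := by
      rw [mul_assoc (c0 * k), h3]; ring
    rw [h4]
    have : (0 : ℝ) ≤ c0 * P * k * (4 * (P : ℝ)) ^ (k - 1) := by positivity
    linarith
  set m : ℝ := M - ∑ i, y i ^ k with hm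
  have hmv : |m - v ^ k| ≤ 1 / 2 * P ^ k := by
    have h1 : m - v ^ k = ∑ i : Fin n, (v ^ k - y i ^ k) := by
      rw [Finset.sum_sub_distrib, Finset.sum_const, Finset.card_univ, Fintype.card_fin, nsmul_eq_mul,
        hm, hM]; ring
    rw [h1]
    refine (Finset.abs_sum_le_sum_abs _ _).trans ?_
    refine (Finset.sum_le_sum fun i _ => hterm i).trans ?_
    rw [Finset.sum_const, Finset.card_univ, Fintype.card_fin, nsmul_eq_mul]
    have h2 : (n : ℝ) * (c0 * k * 4 ^ k * P ^ k) = (n * (c0 * k * 4 ^ k)) * P ^ k := by ring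
    rw [h2]
    apply mul_le_mul_of_nonneg_right _ (by positivity)
    have h3 : c0 * k * 4 ^ k = 1 / (2 * (n + 1)) := by
      rw [hc0]; field_simp
    rw [h3, mul_one_div, div_le_div_iff₀ (by positivity) (by norm_num)]
    linarith
  have hvk1 : 3 / 2 * (P : ℝ) ^ k ≤ v ^ k := by
    calc 3 / 2 * (P : ℝ) ^ k ≤ (3 / 2) ^ k * P ^ k := by
          apply mul_le_mul_of_nonneg_right _ (by positivity)
          calc (3 / 2 : ℝ) = (3 / 2) ^ 1 := by norm_num
            _ ≤ (3 / 2) ^ k := pow_le_pow_right₀ (by norm_num) hk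
      _ = (3 / 2 * P) ^ k := by rw [mul_pow]
      _ ≤ v ^ k := pow_le_pow_left₀ (by positivity) hv1 _
  have hvk2 : v ^ k ≤ (3 * P) ^ k := pow_le_pow_left₀ (by nlinarith) hv2 _
  have hm1 : (P : ℝ) ^ k ≤ m := by
    have := (abs_le.1 hmv).1; linarith
  have h35 : (3 * (P : ℝ)) ^ k + 1 / 2 * P ^ k ≤ (7 / 2 * P) ^ k := by
    rw [mul_pow, mul_pow, ← add_mul]
    apply mul_le_mul_of_nonneg_right _ (by positivity)
    have : ∀ j : ℕ, (3 : ℝ) ^ (j + 1) + 1 / 2 ≤ (7 / 2) ^ (j + 1) := by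
      intro j
      induction j with
      | zero => norm_num
      | succ j ih =>
        have h5 : (0 : ℝ) < 3 ^ (j + 1) := by positivity
        rw [pow_succ, pow_succ (7 / 2 : ℝ)]
        nlinarith
    obtain ⟨j, rfl⟩ : ∃ j, k = j + 1 := ⟨k - 1, by omega⟩
    exact this j
  have hm2 : m ≤ (7 / 2 * P) ^ k := by
    have := (abs_le.1 hmv).2; linarith
  have hm0 : 0 ≤ m := le_trans (by positivity) hm1
  have hkne : k ≠ 0 := by omega
  set ρ : ℝ := m ^ ((k : ℝ)⁻¹) with hρ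
  have hρk : ρ ^ k = m := Real.rpow_inv_natCast_pow hm0 hkne
  have hρ0 : 0 ≤ ρ := Real.rpow_nonneg hm0 _
  have hρ1 : (P : ℝ) ≤ ρ := by
    by_contra hlt
    push Not at hlt
    have := pow_lt_pow_left₀ hlt hρ0 hkne
    rw [hρk] at this; linarith
  have hρ2 : ρ ≤ 7 / 2 * P := by
    by_contra hlt
    push Not at hlt
    have := pow_lt_pow_left₀ hlt (by positivity) hkne
    rw [hρk] at this; linarith
  refine ⟨ρ, fun x hx => ?_⟩
  obtain ⟨hx1, hx2⟩ := hx
  have hPk1 : (1 : ℝ) ≤ P ^ (k - 1) := one_le_pow₀ hPr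
  have hδ1 : 1 / (k * 4 ^ k) * ε / (P : ℝ) ^ (k - 1) ≤ 1 / 4 := by
    have h1 : 1 / ((k : ℝ) * 4 ^ k) ≤ 1 / 4 := one_div_le_one_div_of_le (by norm_num) hk4
    have h0 : 0 ≤ 1 / ((k : ℝ) * 4 ^ k) := by positivity
    have h2 : 1 / ((k : ℝ) * 4 ^ k) * ε ≤ 1 / 4 := by nlinarith
    exact (div_le_self (by positivity) hPk1).trans h2
  have hxP : (P : ℝ) ≤ x := hρ1.trans hx1
  have hx4 : x ≤ 4 * P := by linarith
  constructor
  · intro i _
    refine Fin.cases ?_ (fun j => ?_) i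
    · simpa using ⟨hxP, hx4⟩
    · simpa using hy1 j
  · show |(∑ i, (Fin.cons x y : Fin (n + 1) → ℝ) i ^ k) - M| ≤ ε
    rw [Fin.sum_univ_succ]
    simp only [Fin.cons_zero, Fin.cons_succ]
    have h1 : x ^ k + ∑ i, y i ^ k - M = x ^ k - ρ ^ k := by rw [hρk, hm]; ring
    rw [h1]
    have h2 := pow_diff (R := 4 * P) k (x := x) (y := ρ) (by linarith) hx4 hρ0 (by linarith)
    refine h2.trans ?_
    have h3 : |x - ρ| ≤ 1 / (k * 4 ^ k) * ε / (P : ℝ) ^ (k - 1) := by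
      rw [abs_of_nonneg (by linarith)]; linarith
    have h4 : |x - ρ| * k * (4 * (P : ℝ)) ^ (k - 1) ≤
        1 / (k * 4 ^ k) * ε / (P : ℝ) ^ (k - 1) * k * (4 * (P : ℝ)) ^ (k - 1) := by
      exact mul_le_mul_of_nonneg_right (mul_le_mul_of_nonneg_right h3 (by linarith)) (by positivity)
    refine h4.trans ?_
    have h5 : (4 : ℝ) ^ k = 4 ^ (k - 1) * 4 := by rw [← pow_succ]; congr 1; omega
    have hPne : (P : ℝ) ^ (k - 1) ≠ 0 := by positivity
    have h6 : 1 / (k * 4 ^ k) * ε / (P : ℝ) ^ (k - 1) * k * (4 * (P : ℝ)) ^ (k - 1) = ε / 4 := by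
      rw [mul_pow, h5]
      have hgen : ∀ K a b e : ℝ, K ≠ 0 → a ≠ 0 → b ≠ 0 →
          1 / (K * (a * 4)) * e / b * K * (a * b) = e / 4 := by
        intro K a b e hK ha hb
        field_simp
      exact hgen (k : ℝ) (4 ^ (k - 1)) ((P : ℝ) ^ (k - 1)) ε (by positivity) (by positivity) hPne
    rw [h6]; linarith

theorem vol_shell (k n P : ℕ) (hk : 1 ≤ k) (hP : 1 ≤ P) (ε M : ℝ) (hε : 0 < ε) (hε1 : ε ≤ 1)
    (v : ℝ) (hv1 : 3 / 2 * P ≤ v) (hv2 : v ≤ 3 * P) (hM : M = (n + 1) * v ^ k)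
    (c0 : ℝ) (hc0 : c0 = 1 / (2 * (n + 1) * k * 4 ^ k)) :
    ENNReal.ofReal (1 / (k * 4 ^ k) * ε / P ^ (k - 1) * (2 * c0 * P) ^ n) ≤
      volume (shell k n P ε M) := by
  have hPr : (1 : ℝ) ≤ P := by exact_mod_cast hP
  have hc0pos : 0 < c0 := by
    have : (1 : ℝ) ≤ k := by exact_mod_cast hk
    rw [hc0]; positivity
  set A := shell k n P ε M with hA
  have hAm : MeasurableSet A := (shell_closed k n P ε M).measurableSet
  have hmp := (volume_preserving_piFinSuccAbove (fun _ : Fin (n + 1) => ℝ) 0).symm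
  have h1 : volume A = volume ((MeasurableEquiv.piFinSuccAbove (fun _ : Fin (n + 1) => ℝ) 0).symm ⁻¹' A) :=
    (hmp.measure_preimage_equiv A).symm
  rw [h1]
  have hA' : MeasurableSet ((MeasurableEquiv.piFinSuccAbove (fun _ : Fin (n + 1) => ℝ) 0).symm ⁻¹' A) :=
    (MeasurableEquiv.measurable _) hAm
  rw [Measure.volume_eq_prod, Measure.prod_apply_symm hA']
  set δ : ℝ := 1 / (k * 4 ^ k) * ε / P ^ (k - 1) with hδ
  set Q : Set (Fin n → ℝ) := Set.Icc (fun _ => v - c0 * P) (fun _ => v + c0 * P) with hQ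
  have hQv : volume Q = ENNReal.ofReal ((2 * c0 * P) ^ n) := by
    rw [hQ, Real.volume_Icc_pi]
    simp only [Finset.prod_const, Finset.card_univ, Fintype.card_fin]
    rw [ENNReal.ofReal_pow (by positivity)]
    congr 2; ring
  have hδ0 : 0 ≤ δ := by rw [hδ]; positivity
  calc ENNReal.ofReal (δ * (2 * c0 * P) ^ n) = ENNReal.ofReal δ * volume Q := by
        rw [hQv, ENNReal.ofReal_mul hδ0]
    _ = ∫⁻ _ in Q, ENNReal.ofReal δ := by rw [lintegral_const, Measure.restrict_apply_univ]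
    _ ≤ ∫⁻ y in Q, volume ((fun x : ℝ => (x, y)) ⁻¹'
          ((MeasurableEquiv.piFinSuccAbove (fun _ : Fin (n + 1) => ℝ) 0).symm ⁻¹' A)) := by
        apply setLIntegral_mono' measurableSet_Icc
        intro y hy
        have hy' : ∀ i, |y i - v| ≤ c0 * P := by
          intro i
          rw [abs_le]
          have h1 := hy.1 i
          have h2 := hy.2 i
          simp only at h1 h2
          constructor <;> linarith
        obtain ⟨ρ, hρ⟩ := inner k n P hk hP ε M hε hε1 v hv1 hv2 hM c0 hc0 y hy'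
        have hsub : Set.Icc ρ (ρ + δ) ⊆ (fun x : ℝ => (x, y)) ⁻¹'
          ((MeasurableEquiv.piFinSuccAbove (fun _ : Fin (n + 1) => ℝ) 0).symm ⁻¹' A) := by
          intro x hx
          have h := hρ x hx
          show (MeasurableEquiv.piFinSuccAbove (fun _ : Fin (n + 1) => ℝ) 0).symm (x, y) ∈ A
          rw [MeasurableEquiv.piFinSuccAbove_symm_apply]
          simpa [Fin.insertNthEquiv] using h
        calc ENNReal.ofReal δ = volume (Set.Icc ρ (ρ + δ)) := by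
              rw [Real.volume_Icc]; congr 1; ring
          _ ≤ _ := measure_mono hsub
    _ ≤ _ := setLIntegral_le_lintegral _ _

theorem t_JL : S_JL := by
  intro k s hk hs
  obtain ⟨n, rfl⟩ : ∃ n, s = n + 1 := ⟨s - 1, by omega⟩
  have hkr : (1 : ℝ) ≤ k := by exact_mod_cast hk
  set c0 : ℝ := 1 / (2 * (n + 1) * k * 4 ^ k) with hc0
  have hc0pos : 0 < c0 := by rw [hc0]; positivity
  refine ⟨Real.exp (-Real.pi) * (1 / (k * 4 ^ k) * (2 * c0) ^ n), by positivity, ?_⟩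
  intro P ε M hP hε hε1 hM1 hM2
  have hPr : (1 : ℝ) ≤ P := by exact_mod_cast hP
  have hP0 : (0 : ℝ) < P := by linarith
  have hkne : k ≠ 0 := by omega
  have hs0 : (0 : ℝ) < (n : ℝ) + 1 := by positivity
  have hM1' : ((n : ℝ) + 1) * (3 / 2 * P) ^ k ≤ M := by simpa using hM1
  have hM2' : M ≤ ((n : ℝ) + 1) * (3 * P) ^ k := by simpa using hM2
  set w : ℝ := M / (n + 1) with hw
  have hw1 : (3 / 2 * (P : ℝ)) ^ k ≤ w := by rw [hw, le_div_iff₀ hs0]; linarith
  have hw2 : w ≤ (3 * (P : ℝ)) ^ k := by rw [hw, div_le_iff₀ hs0]; linarith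
  have hw0 : 0 ≤ w := le_trans (by positivity) hw1
  set v : ℝ := w ^ ((k : ℝ)⁻¹) with hv
  have hvk : v ^ k = w := Real.rpow_inv_natCast_pow hw0 hkne
  have hv0 : 0 ≤ v := Real.rpow_nonneg hw0 _
  have hv1 : 3 / 2 * (P : ℝ) ≤ v := by
    by_contra hlt
    push Not at hlt
    have := pow_lt_pow_left₀ hlt hv0 hkne
    rw [hvk] at this; linarith
  have hv2 : v ≤ 3 * (P : ℝ) := by
    by_contra hlt
    push Not at hlt
    have := pow_lt_pow_left₀ hlt (by positivity) hkne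
    rw [hvk] at this; linarith
  have hMv : M = (n + 1) * v ^ k := by rw [hvk, hw]; field_simp
  have hvol := vol_shell k n P hk hP ε M hε hε1 v hv1 hv2 hMv c0 hc0
  set A := shell k n P ε M with hA
  set Bx : Set (Fin (n + 1) → ℝ) := Set.pi Set.univ (fun _ => Set.Icc (P : ℝ) (4 * P)) with hBx
  have hAm : MeasurableSet A := (shell_closed k n P ε M).measurableSet
  have hBc : IsCompact Bx := isCompact_univ_pi fun _ => isCompact_Icc
  have hAB : A ⊆ Bx := Set.inter_subset_left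
  have hBfin : volume Bx ≠ ⊤ := hBc.measure_lt_top.ne
  have hAfin : volume A ≠ ⊤ := (lt_of_le_of_lt (measure_mono hAB) hBc.measure_lt_top).ne
  have hcont : Continuous fun u : Fin (n + 1) → ℝ => Kr ε ((∑ i, (u i) ^ k) - M) := by
    unfold Kr; fun_prop
  have hint : IntegrableOn (fun u : Fin (n + 1) → ℝ => Kr ε ((∑ i, (u i) ^ k) - M)) Bx :=
    hcont.continuousOn.integrableOn_compact hBc
  have hJ : Jm k (n + 1) P ε M = ∫ u in Bx, Kr ε ((∑ i, (u i) ^ k) - M) := rfl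
  rw [hJ]
  have h1 : ∫ u in A, Kr ε ((∑ i, (u i) ^ k) - M) ≤ ∫ u in Bx, Kr ε ((∑ i, (u i) ^ k) - M) := by
    apply setIntegral_mono_set hint
    · exact Filter.Eventually.of_forall fun u => (Real.exp_pos _).le
    · exact hAB.eventuallyLE
  have h2 : Real.exp (-Real.pi) * volume.real A ≤ ∫ u in A, Kr ε ((∑ i, (u i) ^ k) - M) := by
    apply setIntegral_ge_of_const_le_real hAm hAfin _ (hint.mono_set hAB)
    intro u hu
    have hu2 : |(∑ i, (u i) ^ k) - M| ≤ ε := hu.2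
    unfold Kr
    apply Real.exp_le_exp.2
    have h3 : (((∑ i, (u i) ^ k) - M) / ε) ^ 2 ≤ 1 := by
      rw [sq_le_one_iff_abs_le_one, abs_div, abs_of_pos hε, div_le_one hε]; exact hu2
    nlinarith [Real.pi_pos]
  have h3 : 1 / (k * 4 ^ k) * ε / P ^ (k - 1) * (2 * c0 * P) ^ n ≤ volume.real A := by
    rw [Measure.real]
    exact (ENNReal.ofReal_le_iff_le_toReal hAfin).1 hvol
  have h4 : Real.exp (-Real.pi) * (1 / (k * 4 ^ k) * (2 * c0) ^ n) * ε *
      (P : ℝ) ^ (((n + 1 : ℕ) : ℝ) - k) =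
      Real.exp (-Real.pi) * (1 / (k * 4 ^ k) * ε / P ^ (k - 1) * (2 * c0 * P) ^ n) := by
    rw [Real.rpow_sub hP0, Real.rpow_natCast, Real.rpow_natCast]
    obtain ⟨j, rfl⟩ : ∃ j, k = j + 1 := ⟨k - 1, by omega⟩
    simp only [Nat.add_sub_cancel]
    rw [mul_pow _ (P : ℝ), pow_succ (P : ℝ) n, pow_succ (P : ℝ) j]
    field_simp
  rw [h4]
  refine le_trans ?_ (h2.trans h1)
  exact mul_le_mul_of_nonneg_left h3 (Real.exp_pos _).le

end Pool.Agent.W447.WS
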